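import Pool.Agent.helper36.PT.Spec

/-! # Row pt:FEJ: the Fejer weight and its Fourier series -/

set_option autoImplicit false

namespace Pool.Agent.PT

open Finset Pool.Agent.helper71.AA

theorem FEJ_congr {E : Type*} [AddCommMonoid E] [TopologicalSpace E] {f g : ℕ → E} {a : E}
    (h : HasSum f a) (hfg : ∀ n, f n = g n) : HasSum g a := by
  rw [← funext hfg]
  exact h

theorem FEJ_cos (x : ℝ) (hx : |x| ≤ 1) :
    HasSum (fun n : ℕ => 1 / (n : ℝ) ^ 2 * Real.cos (2 * Real.pi * n * x))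
      (Real.pi ^ 2 * (x ^ 2 - |x| + 6⁻¹)) := by
  have h := hasSum_one_div_nat_pow_mul_cos (k := 1) one_ne_zero (x := |x|) ⟨abs_nonneg x, hx⟩
  have h1 : (-1 : ℝ) ^ (1 + 1) * (2 * Real.pi) ^ (2 * 1) / 2 / ((2 * 1).factorial : ℝ) *
      (Polynomial.map (algebraMap ℚ ℝ) (Polynomial.bernoulli (2 * 1))).eval |x| =
      Real.pi ^ 2 * (x ^ 2 - |x| + 6⁻¹) := by
    have h2 : (Polynomial.map (algebraMap ℚ ℝ) (Polynomial.bernoulli (2 * 1))).eval |x| =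
        |x| ^ 2 - |x| + 6⁻¹ := by
      have h3 := bernoulliFun_two |x|
      unfold bernoulliFun at h3
      exact h3
    rw [h2, sq_abs]
    have h4 : ((2 * 1).factorial : ℝ) = 2 := by norm_num [Nat.factorial]
    rw [h4]
    ring
  rw [h1] at h
  refine FEJ_congr h fun n => ?_
  have h5 : Real.cos (2 * Real.pi * n * |x|) = Real.cos (2 * Real.pi * n * x) := by
    rcases abs_cases x with ⟨h6, _⟩ | ⟨h6, _⟩
    · rw [h6]
    · rw [h6, mul_neg, Real.cos_neg]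
  rw [h5]

/-- the half sum -/
theorem FEJ_half (N θ : ℝ) (hN : 2 ≤ N) (hθ : |θ| ≤ 1 / 2) :
    HasSum (fun n : ℕ => (N / Real.pi) ^ 2 * (1 / (n : ℝ) ^ 2) *
      ((1 - Real.cos (2 * Real.pi * n / N)) / 2) * Real.cos (2 * Real.pi * n * θ))
      (-1 / 2 + N / 2 * Tri (N * θ)) := by
  have hN0 : 0 < N := by linarith
  have hi : N⁻¹ ≤ 1 / 2 := by
    rw [inv_le_comm₀ hN0 (by norm_num)]
    norm_num
    exact hN
  have hi0 : 0 < N⁻¹ := inv_pos.2 hN0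
  have hab := abs_le.1 hθ
  have h1 := FEJ_cos θ (by linarith)
  have h2 := FEJ_cos (θ + N⁻¹) (abs_le.2 ⟨by linarith, by linarith⟩)
  have h3 := FEJ_cos (θ - N⁻¹) (abs_le.2 ⟨by linarith, by linarith⟩)
  have h4 := ((h1.sub ((h2.add h3).mul_left (1 / 2))).mul_left ((N / Real.pi) ^ 2 / 2))
  have hpi := Real.pi_pos
  have hval : (N / Real.pi) ^ 2 / 2 * (Real.pi ^ 2 * (θ ^ 2 - |θ| + 6⁻¹) -
      1 / 2 * (Real.pi ^ 2 * ((θ + N⁻¹) ^ 2 - |θ + N⁻¹| + 6⁻¹) +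
        Real.pi ^ 2 * ((θ - N⁻¹) ^ 2 - |θ - N⁻¹| + 6⁻¹))) =
      -1 / 2 + N / 2 * Tri (N * θ) := by
    have h5 : |θ + N⁻¹| + |θ - N⁻¹| = 2 * max |θ| N⁻¹ := by
      rcases le_total |θ| N⁻¹ with h6 | h6
      · rw [max_eq_right h6]
        have h7 := abs_le.1 h6
        rw [abs_of_nonneg (by linarith : 0 ≤ θ + N⁻¹), abs_of_nonpos (by linarith : θ - N⁻¹ ≤ 0)]
        ring
      · rw [max_eq_left h6]
        rcases abs_cases θ with ⟨h8, h9⟩ | ⟨h8, h9⟩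
        · rw [h8] at h6 ⊢
          rw [abs_of_nonneg (by linarith : 0 ≤ θ + N⁻¹), abs_of_nonneg (by linarith : 0 ≤ θ - N⁻¹)]
          ring
        · rw [h8] at h6 ⊢
          rw [abs_of_nonpos (by linarith : θ + N⁻¹ ≤ 0), abs_of_nonpos (by linarith : θ - N⁻¹ ≤ 0)]
          ring
    have h6 : Tri (N * θ) = N * (max |θ| N⁻¹ - |θ|) := by
      unfold Tri
      rw [abs_mul, abs_of_pos hN0]
      rcases le_total |θ| N⁻¹ with h7 | h7
      · rw [max_eq_right h7]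
        have h8 : N * |θ| ≤ 1 := by
          calc N * |θ| ≤ N * N⁻¹ := mul_le_mul_of_nonneg_left h7 hN0.le
            _ = 1 := mul_inv_cancel₀ hN0.ne'
        rw [max_eq_right (by linarith)]
        rw [mul_sub, mul_inv_cancel₀ hN0.ne']
      · rw [max_eq_left h7]
        have h8 : 1 ≤ N * |θ| := by
          calc (1 : ℝ) = N * N⁻¹ := (mul_inv_cancel₀ hN0.ne').symm
            _ ≤ N * |θ| := mul_le_mul_of_nonneg_left h7 hN0.le
        rw [max_eq_left (by linarith)]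
        ring
    rw [h6]
    have h7 : (N / Real.pi) ^ 2 / 2 * (Real.pi ^ 2 * (θ ^ 2 - |θ| + 6⁻¹) -
      1 / 2 * (Real.pi ^ 2 * ((θ + N⁻¹) ^ 2 - |θ + N⁻¹| + 6⁻¹) +
        Real.pi ^ 2 * ((θ - N⁻¹) ^ 2 - |θ - N⁻¹| + 6⁻¹))) =
        N ^ 2 / 2 * (-(N⁻¹) ^ 2 - |θ| + (|θ + N⁻¹| + |θ - N⁻¹|) / 2) := by
      field_simp
      ring
    rw [h7, h5]
    field_simp
    ring
  rw [hval] at h4
  refine FEJ_congr h4 fun n => ?_
  have h5 : Real.cos (2 * Real.pi * n * (θ + N⁻¹)) + Real.cos (2 * Real.pi * n * (θ - N⁻¹)) =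
      2 * (Real.cos (2 * Real.pi * n * θ) * Real.cos (2 * Real.pi * n / N)) := by
    rw [mul_add, mul_sub, Real.cos_add, Real.cos_sub, ← div_eq_mul_inv]
    ring
  have h6 : 1 / (n : ℝ) ^ 2 * Real.cos (2 * Real.pi * n * (θ + N⁻¹)) +
      1 / (n : ℝ) ^ 2 * Real.cos (2 * Real.pi * n * (θ - N⁻¹)) =
      1 / (n : ℝ) ^ 2 * (2 * (Real.cos (2 * Real.pi * n * θ) * Real.cos (2 * Real.pi * n / N))) := by
    rw [← mul_add, h5]
  rw [h6]
  ring

theorem FEJ_term (N θ : ℝ) (hN : 2 ≤ N) (n : ℕ) (hn : n ≠ 0) :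
    (Fz N (n : ℤ) : ℂ) * ef (((n : ℤ) : ℝ) * θ) + (Fz N (-(n : ℤ)) : ℂ) * ef (((-(n : ℤ) : ℤ) : ℝ) * θ) =
    ((2 * ((N / Real.pi) ^ 2 * (1 / (n : ℝ) ^ 2) *
      ((1 - Real.cos (2 * Real.pi * n / N)) / 2) * Real.cos (2 * Real.pi * n * θ)) : ℝ) : ℂ) := by
  have hN0 : 0 < N := by linarith
  have hpi := Real.pi_pos
  have hn' : (n : ℝ) ≠ 0 := by exact_mod_cast hn
  have h1 : Fz N (-(n : ℤ)) = Fz N (n : ℤ) := by
    unfold Fz
    have h2 : Real.pi * ((-(n : ℤ) : ℤ) : ℝ) / N = -(Real.pi * ((n : ℤ) : ℝ) / N) := by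
      push_cast
      ring
    rw [h2, Real.sinc_neg]
  have h2 : Fz N (n : ℤ) = (N / Real.pi) ^ 2 * (1 / (n : ℝ) ^ 2) *
      ((1 - Real.cos (2 * Real.pi * n / N)) / 2) := by
    unfold Fz
    have h0 : Real.pi * ((n : ℤ) : ℝ) / N ≠ 0 := by
      have : ((n : ℤ) : ℝ) ≠ 0 := by exact_mod_cast hn
      positivity
    rw [Real.sinc_of_ne_zero h0, div_pow]
    have h3 : Real.sin (Real.pi * ((n : ℤ) : ℝ) / N) ^ 2 = (1 - Real.cos (2 * Real.pi * n / N)) / 2 := by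
      have h4 : 2 * Real.pi * n / N = 2 * (Real.pi * ((n : ℤ) : ℝ) / N) := by
        push_cast
        ring
      rw [h4, Real.cos_two_mul, Real.cos_sq']
      ring
    rw [h3]
    push_cast
    field_simp
  have h3 : ef (((n : ℤ) : ℝ) * θ) + ef (((-(n : ℤ) : ℤ) : ℝ) * θ) =
      ((2 * Real.cos (2 * Real.pi * n * θ) : ℝ) : ℂ) := by
    have h4 : ((2 * Real.cos (2 * Real.pi * n * θ) : ℝ) : ℂ) =
        Complex.exp (((2 * Real.pi * n * θ : ℝ) : ℂ) * Complex.I) +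
          Complex.exp (-((2 * Real.pi * n * θ : ℝ) : ℂ) * Complex.I) := by
      rw [Complex.ofReal_mul, Complex.ofReal_cos, Complex.ofReal_ofNat]
      exact Complex.two_cos _
    rw [h4]
    unfold ef
    have h5 : 2 * (Real.pi : ℂ) * ((((n : ℤ) : ℝ) * θ : ℝ) : ℂ) * Complex.I =
        ((2 * Real.pi * n * θ : ℝ) : ℂ) * Complex.I := by
      push_cast
      ring
    have h6 : 2 * (Real.pi : ℂ) * ((((-(n : ℤ) : ℤ) : ℝ) * θ : ℝ) : ℂ) * Complex.I =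
        -((2 * Real.pi * n * θ : ℝ) : ℂ) * Complex.I := by
      push_cast
      ring
    rw [h5, h6]
  rw [h1, ← mul_add, h3, h2]
  push_cast
  ring

theorem FEJ : FEJ_stmt := by
  intro N θ hN hθ
  have hN0 : 0 < N := by linarith
  have hs : Summable (fun a : ℤ => (Fz N a : ℂ) * ef (a * θ)) := by
    refine Summable.of_norm_bounded (Fz_summable N hN0) (fun a => ?_)
    rw [norm_mul, ef_norm, mul_one, Complex.norm_real, Real.norm_eq_abs,
      abs_of_nonneg (Fz_nonneg N a)]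
  have h1 := hs.hasSum.nat_add_neg
  have h0 : (Fz N 0 : ℂ) * ef (((0 : ℤ) : ℝ) * θ) = 1 := by
    unfold Fz
    rw [Int.cast_zero, mul_zero, zero_div, Real.sinc_zero, zero_mul, ef_zero]
    norm_num
  have h2 := (FEJ_half N θ hN hθ).mul_left 2
  have h3 : HasSum (fun n : ℕ => if n = 0 then (2 : ℝ) else 0) 2 := by
    have h4 := hasSum_ite_eq (0 : ℕ) (2 : ℝ)
    exact h4
  have h5 := (h2.add h3)
  have h6 : HasSum (fun n : ℕ => (((2 * ((N / Real.pi) ^ 2 * (1 / (n : ℝ) ^ 2) *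
      ((1 - Real.cos (2 * Real.pi * n / N)) / 2) * Real.cos (2 * Real.pi * n * θ)) +
      if n = 0 then (2 : ℝ) else 0 : ℝ)) : ℂ))
      ((2 * (-1 / 2 + N / 2 * Tri (N * θ)) + 2 : ℝ) : ℂ) := by
    exact_mod_cast h5
  have h7 : HasSum (fun n : ℕ => (Fz N (n : ℤ) : ℂ) * ef (((n : ℤ) : ℝ) * θ) +
      (Fz N (-(n : ℤ)) : ℂ) * ef (((-(n : ℤ) : ℤ) : ℝ) * θ))
      ((2 * (-1 / 2 + N / 2 * Tri (N * θ)) + 2 : ℝ) : ℂ) := by
    refine FEJ_congr h6 fun n => ?_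
    rcases eq_or_ne n 0 with rfl | hn
    · have h8 : (Fz N ((0 : ℕ) : ℤ) : ℂ) * ef ((((0 : ℕ) : ℤ) : ℝ) * θ) = 1 := by
        exact_mod_cast h0
      have h9 : (Fz N (-((0 : ℕ) : ℤ)) : ℂ) * ef (((-((0 : ℕ) : ℤ) : ℤ) : ℝ) * θ) = 1 := by
        have : (-((0 : ℕ) : ℤ)) = 0 := by norm_num
        rw [this]
        exact h0
      rw [h8, h9, if_pos rfl]
      norm_num
    · rw [FEJ_term N θ hN n hn, if_neg hn, add_zero]
  have h8 := h1.unique h7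
  rw [h0] at h8
  have h9 : (∑' a : ℤ, (Fz N a : ℂ) * ef (a * θ)) = ((N * Tri (N * θ) : ℝ) : ℂ) := by
    have h10 : (∑' a : ℤ, (Fz N a : ℂ) * ef (a * θ)) =
        ((2 * (-1 / 2 + N / 2 * Tri (N * θ)) + 2 : ℝ) : ℂ) - 1 := by
      rw [← h8]
      ring
    rw [h10]
    push_cast
    ring
  rw [← h9]
  exact hs.hasSum

end Pool.Agent.PT
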